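import Pool.Agent.Q287.SM.Main

/-!
# Generic identifiability of homoscedastic cyclic linear structural equation models

The definitions are in `Pool/Agent/Q287/SM/Mod.lean`: `Dig V` is the type of simple directed graphs
on `V`, `model G` the set of all precision matrices `s (I - L) (I - L)^T`, `vanIdeal M` the ideal
of all polynomials in the `V x V` entries which vanish on `M`, `sdim M` the Krull dimension of the
ring of polynomial functions on `M` (the dimension of the Zariski closure of `M`).

Idea of the proof. The Zariski closure of `model G` is the closure of the image of the linear space
`{c I + L}` under `B ↦ B B^T`. A linear form `K ↦ tr (H K)` pulls back to the quadratic form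
`tr (B^T H B)` on this linear space, whose determinant is (up to principal minors of `H`) the sum
over the nodes `k` of the conditional variances of `k` given its parents, for `H` in the place of
a covariance matrix. Two models with the same closure have the same dual variety, and it lies in
both determinantal hypersurfaces; a matrix `H` which differs from a diagonal matrix in one pair of
entries only then detects the direction of an edge. `Pool/Agent/Q287/SM/Alg.lean` contains an
elementary replacement for the duality argument: a relation between `d + 1` of the quadratic forms
is differentiated on both sides.
-/

set_option autoImplicit false

namespace Pool.Agent.Results.MP_0e1d24_pr.HomoscedasticIdentifiability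

open Pool.Agent.Q287.SM

/-- **Positive answer to Q1**, without the assumption that the graphs are not complete: for every
finite set `V`, every family of simple directed graphs on `V` (directed cycles allowed, complete or
not) has generically identifiable graph parameter. -/
theorem result (V : Type) [Fintype V] [DecidableEq V] (F : Set (Dig V)) :
    GenericallyIdentifiable F := by
  intro G₁ _ G₂ _ hne
  by_contra h
  apply hne
  apply Dig.ext
  funext u v
  exact propext ⟨adj_of_vanIdeal_eq G₁ G₂ (vanIdeal_eq h) u v,
    adj_of_vanIdeal_eq G₂ G₁ (vanIdeal_eq h).symm u v⟩

end Pool.Agent.Results.MP_0e1d24_pr.HomoscedasticIdentifiability
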